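import Pool.Agent.helper46.HK.P2
import Pool.Agent.helper92.HK.P4

open scoped Manifold ContDiff

noncomputable section

namespace Pool.Agent.helper62.K3

/-- the other coordinates are holomorphic -/
theorem P5_P4 (a b c : Fin 6) (e : OpenPartialHomeomorph X0 (ℂ × ℂ)) (he : IsChAt a b c e)
    (i : Fin 6) : AnalyticOnNhd ℂ (fun u => zc a i (e.symm u)) e.target ∧
      (i ≠ b → i ≠ c → ∀ u ∈ e.target, zc a i (e.symm u) ≠ 0) :=
  P4_of P1 P2_zc P2_rel a b c e he i

/-- a change of coordinates in terms of the affine coordinates -/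
theorem P5_eq (a b c a' b' c' : Fin 6) (e e' : OpenPartialHomeomorph X0 (ℂ × ℂ))
    (he : IsChAt a b c e) (he' : IsChAt a' b' c' e') (T : X0) (hT : T ∈ e.source)
    (hT' : T ∈ e'.source) :
    zc a a' T ≠ 0 ∧ e' T = (zc a b' T / zc a a' T, zc a c' T / zc a a' T) := by
  have h1 : T.1 a a ≠ 0 := (he.2.2.2.1 hT).1
  have h2 : T.1 a' a' ≠ 0 := (he'.2.2.2.1 hT').1
  obtain ⟨_, _, _, h3, h4⟩ := P2_rel a T h1
  refine ⟨fun h => h2 ((h3 a').2 h), ?_⟩
  rw [he'.2.2.2.2 T hT']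
  unfold crd
  rw [h4 a' h2 b', h4 a' h2 c']

theorem P5_open (e e' : OpenPartialHomeomorph X0 (ℂ × ℂ)) :
    IsOpen (e.target ∩ e.symm ⁻¹' e'.source) :=
  e.symm.isOpen_inter_preimage e'.open_source

theorem P5_eventually (a b c a' b' c' : Fin 6) (e e' : OpenPartialHomeomorph X0 (ℂ × ℂ))
    (he : IsChAt a b c e) (he' : IsChAt a' b' c' e') (u : ℂ × ℂ)
    (hu : u ∈ e.target ∩ e.symm ⁻¹' e'.source) :
    (fun z => e' (e.symm z)) =ᶠ[nhds u] (fun z => (zc a b' (e.symm z) / zc a a' (e.symm z),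
      zc a c' (e.symm z) / zc a a' (e.symm z))) := by
  filter_upwards [(P5_open e e').mem_nhds hu] with z hz
  exact (P5_eq a b c a' b' c' e e' he he' (e.symm z) (e.map_target hz.1) hz.2).2

/-- hk:P5 transition maps are holomorphic (from P4) -/
theorem P5 (e e' : OpenPartialHomeomorph X0 (ℂ × ℂ)) (he : IsCh e) (he' : IsCh e') :
    AnalyticOnNhd ℂ (fun u => e' (e.symm u)) (e.target ∩ e.symm ⁻¹' e'.source) := by
  obtain ⟨a, b, c, he⟩ := he
  obtain ⟨a', b', c', he'⟩ := he'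
  intro u hu
  have h1 := P5_eq a b c a' b' c' e e' he he' (e.symm u) (e.map_target hu.1) hu.2
  have hA := (P5_P4 a b c e he a').1 u hu.1
  have hB := (P5_P4 a b c e he b').1 u hu.1
  have hC := (P5_P4 a b c e he c').1 u hu.1
  exact ((hB.div hA h1.1).prod (hC.div hA h1.1)).congr
    (P5_eventually a b c a' b' c' e e' he he' u hu).symm

end Pool.Agent.helper62.K3
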