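import Pool.Agent.helper33.HK.P5

open scoped Manifold ContDiff

noncomputable section

namespace Pool.Agent.helper62.K3

/-- hk:P6B derivatives of the coordinates -/
theorem P6B (a b c : Fin 6) (e : OpenPartialHomeomorph X0 (ℂ × ℂ)) (he : IsChAt a b c e)
    (u : ℂ × ℂ) (hu : u ∈ e.target) :
    (∀ h : ℂ × ℂ, (fun i => zc a i (e.symm u) * fderiv ℂ (fun z => zc a i (e.symm z)) u h) ∈ KK) ∧
    tri (fun i => zc a i (e.symm u)) (fun i => fderiv ℂ (fun z => zc a i (e.symm z)) u (1, 0))
      (fun i => fderiv ℂ (fun z => zc a i (e.symm z)) u (0, 1)) a b c = 1 := by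
  have hd : ∀ i, HasFDerivAt (fun z => zc a i (e.symm z))
      (fderiv ℂ (fun z => zc a i (e.symm z)) u) u :=
    fun i => ((P5_P4 a b c e he i).1 u hu).differentiableAt.hasFDerivAt
  have haa : ∀ z ∈ e.target, (e.symm z).1 a a ≠ 0 :=
    fun z hz => (he.2.2.2.1 (e.map_target hz)).1
  have hnear : ∀ᶠ z in nhds u, z ∈ e.target := e.open_target.mem_nhds hu
  constructor
  · intro h m
    have h1 : HasFDerivAt (fun z => ∑ i : Fin 6, ((i : ℕ) : ℂ) ^ (m : ℕ) * zc a i (e.symm z) ^ 2)
        (∑ i : Fin 6, ((i : ℕ) : ℂ) ^ (m : ℕ) • ((2 • zc a i (e.symm u) ^ (2 - 1)) •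
          fderiv ℂ (fun z => zc a i (e.symm z)) u)) u := by
      apply HasFDerivAt.fun_sum
      intro i _
      exact ((hd i).pow 2).const_mul _
    have h2 : (fun z => ∑ i : Fin 6, ((i : ℕ) : ℂ) ^ (m : ℕ) * zc a i (e.symm z) ^ 2)
        =ᶠ[nhds u] fun _ => (0 : ℂ) := by
      filter_upwards [hnear] with z hz
      exact (P2_rel a (e.symm z) (haa z hz)).2.1 m
    have h3 := h1.unique ((hasFDerivAt_const (0 : ℂ) u).congr_of_eventuallyEq h2)
    have h4 := congrArg (fun L : (ℂ × ℂ) →L[ℂ] ℂ => L h) h3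
    simp only [zero_apply] at h4
    have h5 : (∑ i : Fin 6, ((i : ℕ) : ℂ) ^ (m : ℕ) • ((2 • zc a i (e.symm u) ^ (2 - 1)) •
          fderiv ℂ (fun z => zc a i (e.symm z)) u)) h =
        2 * ∑ i : Fin 6, ((i : ℕ) : ℂ) ^ (m : ℕ) * (zc a i (e.symm u) *
          fderiv ℂ (fun z => zc a i (e.symm z)) u h) := by
      rw [sum_apply, Finset.mul_sum]
      refine Finset.sum_congr rfl fun i _ => ?_
      simp only [smul_apply, smul_eq_mul]
      rw [two_smul]
      ring
    rw [h5] at h4
    rcases mul_eq_zero.1 h4 with h6 | h6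
    · norm_num at h6
    · exact h6
  · have ha : (fun z => zc a a (e.symm z)) =ᶠ[nhds u] fun _ => (1 : ℂ) := by
      filter_upwards [hnear] with z hz
      exact (P2_rel a (e.symm z) (haa z hz)).1
    have hcrd : ∀ z ∈ e.target, (zc a b (e.symm z), zc a c (e.symm z)) = z := by
      intro z hz
      have h1 := he.2.2.2.2 (e.symm z) (e.map_target hz)
      rw [e.right_inv hz] at h1
      exact h1.symm
    have hb : (fun z => zc a b (e.symm z)) =ᶠ[nhds u] fun z => z.1 := by
      filter_upwards [hnear] with z hz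
      exact congrArg Prod.fst (hcrd z hz)
    have hc : (fun z => zc a c (e.symm z)) =ᶠ[nhds u] fun z => z.2 := by
      filter_upwards [hnear] with z hz
      exact congrArg Prod.snd (hcrd z hz)
    have da : fderiv ℂ (fun z => zc a a (e.symm z)) u = 0 := by
      rw [ha.fderiv_eq]; exact fderiv_const_apply _
    have db : fderiv ℂ (fun z => zc a b (e.symm z)) u = ContinuousLinearMap.fst ℂ ℂ ℂ := by
      rw [hb.fderiv_eq]; exact fderiv_fst
    have dc : fderiv ℂ (fun z => zc a c (e.symm z)) u = ContinuousLinearMap.snd ℂ ℂ ℂ := by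
      rw [hc.fderiv_eq]; exact fderiv_snd
    have va : zc a a (e.symm u) = 1 := ha.self_of_nhds
    unfold tri
    simp only [da, db, dc, va]
    simp

end Pool.Agent.helper62.K3
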