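import Pool.Agent.helper33.HK.P5

open scoped Manifold ContDiff

noncomputable section

namespace Pool.Agent.helper62.K3

/-- the determinant of a linear map of `ℂ × ℂ` -/
theorem P6C_det (L : (ℂ × ℂ) →L[ℂ] (ℂ × ℂ)) :
    L.det = (L (1, 0)).1 * (L (0, 1)).2 - (L (0, 1)).1 * (L (1, 0)).2 := by
  have e1 : L.det = LinearMap.det (L : (ℂ × ℂ) →ₗ[ℂ] (ℂ × ℂ)) := rfl
  rw [e1, ← LinearMap.det_toMatrix (Module.Basis.finTwoProd ℂ), Matrix.det_fin_two]
  simp [LinearMap.toMatrix_apply]

/-- hk:P6C the Jacobian of a change of coordinates -/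
theorem P6C (a b c a' b' c' : Fin 6) (e e' : OpenPartialHomeomorph X0 (ℂ × ℂ))
    (he : IsChAt a b c e) (he' : IsChAt a' b' c' e') (T : X0) (hT : T ∈ e.source)
    (hT' : T ∈ e'.source) :
    (fderiv ℂ (fun z => e' (e.symm z)) (e T)).det =
      tri (fun i => zc a i T) (fun i => fderiv ℂ (fun z => zc a i (e.symm z)) (e T) (1, 0))
        (fun i => fderiv ℂ (fun z => zc a i (e.symm z)) (e T) (0, 1)) a' b' c' /
        zc a a' T ^ 3 := by
  have hu : e T ∈ e.target ∩ e.symm ⁻¹' e'.source := by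
    refine ⟨e.map_source hT, ?_⟩
    rw [Set.mem_preimage, e.left_inv hT]
    exact hT'
  have hval : e.symm (e T) = T := e.left_inv hT
  have hA0 : zc a a' T ≠ 0 := (P5_eq a b c a' b' c' e e' he he' T hT hT').1
  have hd : ∀ i, HasFDerivAt (fun z => zc a i (e.symm z))
      (fderiv ℂ (fun z => zc a i (e.symm z)) (e T)) (e T) :=
    fun i => ((P5_P4 a b c e he i).1 (e T) hu.1).differentiableAt.hasFDerivAt
  have hq : ∀ i, HasFDerivAt (fun z => zc a i (e.symm z) / zc a a' (e.symm z))
      (fderiv ℂ (fun z => zc a i (e.symm z) / zc a a' (e.symm z)) (e T)) (e T) := by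
    intro i
    have h1 := ((P5_P4 a b c e he i).1 (e T) hu.1).fun_div ((P5_P4 a b c e he a').1 (e T) hu.1)
      (by rw [hval]; exact hA0)
    exact h1.differentiableAt.hasFDerivAt
  have hne : ∀ᶠ z in nhds (e T), zc a a' (e.symm z) ≠ 0 := by
    apply (hd a').continuousAt.eventually_ne
    rw [hval]; exact hA0
  have hqv : ∀ i (h : ℂ × ℂ),
      fderiv ℂ (fun z => zc a i (e.symm z) / zc a a' (e.symm z)) (e T) h =
        (zc a a' T * fderiv ℂ (fun z => zc a i (e.symm z)) (e T) h -
          zc a i T * fderiv ℂ (fun z => zc a a' (e.symm z)) (e T) h) / zc a a' T ^ 2 := by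
    intro i h
    have h1 := (hq i).mul (hd a')
    have h2 : (fun z => zc a i (e.symm z)) =ᶠ[nhds (e T)]
        ((fun z => zc a i (e.symm z) / zc a a' (e.symm z)) * fun z => zc a a' (e.symm z)) := by
      filter_upwards [hne] with z hz
      rw [Pi.mul_apply, div_mul_cancel₀ _ hz]
    have h3 := (hd i).unique (h1.congr_of_eventuallyEq h2)
    have h4 := congrArg (fun L : (ℂ × ℂ) →L[ℂ] ℂ => L h) h3
    simp only [add_apply, smul_apply, smul_eq_mul, hval] at h4
    rw [h4]
    field_simp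
    ring
  have hF : HasFDerivAt (fun z => e' (e.symm z))
      ((fderiv ℂ (fun z => zc a b' (e.symm z) / zc a a' (e.symm z)) (e T)).prod
        (fderiv ℂ (fun z => zc a c' (e.symm z) / zc a a' (e.symm z)) (e T))) (e T) :=
    ((hq b').prodMk (hq c')).congr_of_eventuallyEq
      (P5_eventually a b c a' b' c' e e' he he' (e T) hu)
  rw [hF.fderiv, P6C_det]
  simp only [ContinuousLinearMap.prod_apply, hqv]
  unfold tri
  field_simp
  ring

end Pool.Agent.helper62.K3
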