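import Pool.Agent.helper62.K3.Defs

open scoped Manifold ContDiff

noncomputable section

namespace Pool.Agent.helper62.K3

section
variable {S : Type} [TopologicalSpace S] [ChartedSpace (ℂ × ℂ) S] [IsManifold 𝓘(ℂ, ℂ × ℂ) ω S]

/-- the chart expression of `g` is analytic -/
theorem GA_contDiffAt (g : S → S) (hg : ContMDiff 𝓘(ℂ, ℂ × ℂ) 𝓘(ℂ, ℂ × ℂ) ω g) (p q : S)
    (hq : q ∈ (chartAt (ℂ × ℂ) p).source) (hgq : g q ∈ (chartAt (ℂ × ℂ) p).source) :
    ContDiffAt ℂ ω (fun z => chartAt (ℂ × ℂ) p (g ((chartAt (ℂ × ℂ) p).symm z)))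
      (chartAt (ℂ × ℂ) p q) := by
  have h1 := (contMDiffAt_iff_of_mem_source (x := p) (y := p) hq hgq).1 (hg q)
  have h2 := h1.2
  simp only [mfld_simps] at h2
  rw [contDiffWithinAt_univ] at h2
  exact h2

omit [IsManifold 𝓘(ℂ, ℂ × ℂ) ω S] in
/-- points near `chartAt p p` correspond to points near `p` -/
theorem GA_tendsto (p : S) : Filter.Tendsto (chartAt (ℂ × ℂ) p).symm
    (nhds (chartAt (ℂ × ℂ) p p)) (nhds p) := by
  have h := (chartAt (ℂ × ℂ) p).continuousAt_symm (mem_chart_target (ℂ × ℂ) p)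
  unfold ContinuousAt at h
  rwa [(chartAt (ℂ × ℂ) p).left_inv (mem_chart_source (ℂ × ℂ) p)] at h

omit [IsManifold 𝓘(ℂ, ℂ × ℂ) ω S] in
theorem GA_near (p : S) (U : Set S) (hU : U ∈ nhds p) :
    ∀ᶠ z in nhds (chartAt (ℂ × ℂ) p p), (chartAt (ℂ × ℂ) p).symm z ∈ U :=
  GA_tendsto p hU

omit [IsManifold 𝓘(ℂ, ℂ × ℂ) ω S] in
theorem GA_target (p : S) :
    ∀ᶠ z in nhds (chartAt (ℂ × ℂ) p p), z ∈ (chartAt (ℂ × ℂ) p).target :=
  (chartAt (ℂ × ℂ) p).open_target.mem_nhds (mem_chart_target (ℂ × ℂ) p)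

/-- hk:GA chain rule at a fixed point -/
theorem GA (g g' : S → S) (hg : ContMDiff 𝓘(ℂ, ℂ × ℂ) 𝓘(ℂ, ℂ × ℂ) ω g)
    (hg' : ContMDiff 𝓘(ℂ, ℂ × ℂ) 𝓘(ℂ, ℂ × ℂ) ω g') (p : S) (hp : g p = p) (hp' : g' p = p) :
    locD (fun x => g (g' x)) p = (locD g p).comp (locD g' p) := by
  unfold locD
  set e := chartAt (ℂ × ℂ) p with he
  have hpe : p ∈ e.source := mem_chart_source (ℂ × ℂ) p
  have hF := (GA_contDiffAt g hg p p hpe (by rw [hp]; exact hpe)).differentiableAt (by simp)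
  have hF' := (GA_contDiffAt g' hg' p p hpe (by rw [hp']; exact hpe)).differentiableAt (by simp)
  rw [← he] at hF hF'
  have hval : e (g' (e.symm (e p))) = e p := by
    rw [e.left_inv hpe, hp']
  have h1 : (fun z => e (g (g' (e.symm z)))) =ᶠ[nhds (e p)]
      (fun z => e (g (e.symm z))) ∘ (fun z => e (g' (e.symm z))) := by
    have h2 : ∀ᶠ z in nhds (e p), e.symm z ∈ g' ⁻¹' e.source := by
      apply GA_near p
      apply hg'.continuous.continuousAt.preimage_mem_nhds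
      rw [hp']
      exact e.open_source.mem_nhds hpe
    filter_upwards [h2] with z hz
    simp only [Function.comp_apply]
    rw [e.left_inv hz]
  rw [h1.fderiv_eq, fderiv_comp _ (by rw [hval]; exact hF) hF', hval]

end

end Pool.Agent.helper62.K3
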