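import Pool.Agent.helper33.HK.GA

open scoped Manifold ContDiff

noncomputable section

namespace Pool.Agent.helper62.K3

section
variable {S : Type} [TopologicalSpace S] [ChartedSpace (ℂ × ℂ) S] [IsManifold 𝓘(ℂ, ℂ × ℂ) ω S]

/-- hk:GB a fixed point with derivative `-1` is isolated -/
theorem GB (g : S → S) (hg : ContMDiff 𝓘(ℂ, ℂ × ℂ) 𝓘(ℂ, ℂ × ℂ) ω g) (p : S) (hp : g p = p)
    (hD : locD g p = -ContinuousLinearMap.id ℂ (ℂ × ℂ)) :
    ∃ U ∈ nhds p, ∀ x ∈ U, g x = x → x = p := by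
  set e := chartAt (ℂ × ℂ) p with he
  have hpe : p ∈ e.source := mem_chart_source (ℂ × ℂ) p
  have hF := (GA_contDiffAt g hg p p hpe (by rw [hp]; exact hpe)).differentiableAt (by simp)
  have hF1 : HasFDerivAt (fun z => e (g (e.symm z))) (locD g p) (e p) := hF.hasFDerivAt
  rw [hD] at hF1
  have hG : HasFDerivAt (fun z => e (g (e.symm z)) - z)
      (-ContinuousLinearMap.id ℂ (ℂ × ℂ) - ContinuousLinearMap.id ℂ (ℂ × ℂ)) (e p) :=
    hF1.sub (hasFDerivAt_id (e p))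
  have h1 : ∀ᶠ z in nhdsWithin (e p) {e p}ᶜ, e (g (e.symm z)) - z ≠ 0 := by
    apply hG.eventually_ne
    refine ⟨1, AddMonoidHomClass.antilipschitz_of_bound _ fun z => ?_⟩
    have h2 : (-ContinuousLinearMap.id ℂ (ℂ × ℂ) - ContinuousLinearMap.id ℂ (ℂ × ℂ)) z =
        (-2 : ℂ) • z := by
      change -z - z = (-2 : ℂ) • z
      rw [neg_smul, two_smul]
      abel
    rw [h2, norm_smul, NNReal.coe_one, one_mul]
    have h3 : ‖(-2 : ℂ)‖ = 2 := by simp
    rw [h3]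
    have := norm_nonneg z
    linarith
  rw [eventually_nhdsWithin_iff] at h1
  refine ⟨e.source ∩ e ⁻¹' {z | z ∈ ({e p}ᶜ : Set (ℂ × ℂ)) → e (g (e.symm z)) - z ≠ 0},
    Filter.inter_mem (e.open_source.mem_nhds hpe) ((e.continuousAt hpe).preimage_mem_nhds h1), ?_⟩
  rintro x ⟨hx1, hx2⟩ hgx
  by_contra hne
  have h4 : e x ≠ e p := fun h => hne (e.injOn hx1 hpe h)
  apply hx2 h4
  rw [e.left_inv hx1, hgx, sub_self]

end

end Pool.Agent.helper62.K3
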