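import Pool.Agent.helper33.HK.GA

open scoped Manifold ContDiff

noncomputable section

namespace Pool.Agent.helper62.K3

section
variable {S : Type} [TopologicalSpace S] [ChartedSpace (ℂ × ℂ) S] [IsManifold 𝓘(ℂ, ℂ × ℂ) ω S]

/-- hk:GC an involution with derivative `1` at a fixed point is the identity nearby -/
theorem GC (g : S → S) (hg : ContMDiff 𝓘(ℂ, ℂ × ℂ) 𝓘(ℂ, ℂ × ℂ) ω g) (hi : ∀ x, g (g x) = x)
    (p : S) (hp : g p = p) (hD : locD g p = ContinuousLinearMap.id ℂ (ℂ × ℂ)) :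
    ∃ U ∈ nhds p, ∀ x ∈ U, g x = x := by
  set e := chartAt (ℂ × ℂ) p with he
  have hpe : p ∈ e.source := mem_chart_source (ℂ × ℂ) p
  have hpt : e p ∈ e.target := mem_chart_target (ℂ × ℂ) p
  have hF0 := GA_contDiffAt g hg p p hpe (by rw [hp]; exact hpe)
  have hF := hF0.hasStrictFDerivAt (by simp)
  have hD' : fderiv ℂ (fun z => chartAt (ℂ × ℂ) p (g ((chartAt (ℂ × ℂ) p).symm z)))
      (chartAt (ℂ × ℂ) p p) = ContinuousLinearMap.id ℂ (ℂ × ℂ) := hD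
  rw [hD', ← he] at hF
  have hφ : HasStrictFDerivAt (fun z => (2⁻¹ : ℂ) • (z + e (g (e.symm z))))
      ((ContinuousLinearEquiv.refl ℂ (ℂ × ℂ) : (ℂ × ℂ) ≃L[ℂ] (ℂ × ℂ)) :
        (ℂ × ℂ) →L[ℂ] (ℂ × ℂ)) (e p) := by
    have h1 := ((hasStrictFDerivAt_id (𝕜 := ℂ) (e p)).add hF).const_smul (2⁻¹ : ℂ)
    have h2 : (2⁻¹ : ℂ) • (ContinuousLinearMap.id ℂ (ℂ × ℂ) + ContinuousLinearMap.id ℂ (ℂ × ℂ)) =
        ((ContinuousLinearEquiv.refl ℂ (ℂ × ℂ) : (ℂ × ℂ) ≃L[ℂ] (ℂ × ℂ)) :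
          (ℂ × ℂ) →L[ℂ] (ℂ × ℂ)) := by
      rw [← two_smul ℂ, smul_smul]
      norm_num
    rw [h2] at h1
    exact h1
  set Ψ := hφ.toOpenPartialHomeomorph _ with hΨ
  have hΨs : Ψ.source ∈ nhds (e p) :=
    Ψ.open_source.mem_nhds hφ.mem_toOpenPartialHomeomorph_source
  have hinj : ∀ z ∈ Ψ.source, ∀ w ∈ Ψ.source,
      (2⁻¹ : ℂ) • (z + e (g (e.symm z))) = (2⁻¹ : ℂ) • (w + e (g (e.symm w))) → z = w := by
    intro z hz w hw h
    apply Ψ.injOn hz hw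
    rw [hΨ, hφ.toOpenPartialHomeomorph_coe]
    exact h
  -- the neighbourhood
  have hgc : Continuous g := hg.continuous
  have n1 : e.source ∈ nhds p := e.open_source.mem_nhds hpe
  have n2 : g ⁻¹' e.source ∈ nhds p := by
    apply hgc.continuousAt.preimage_mem_nhds
    rw [hp]; exact n1
  have n3 : e ⁻¹' Ψ.source ∈ nhds p := (e.continuousAt hpe).preimage_mem_nhds hΨs
  have n4 : g ⁻¹' (e ⁻¹' Ψ.source) ∈ nhds p := by
    apply hgc.continuousAt.preimage_mem_nhds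
    rw [hp]; exact n3
  refine ⟨_, Filter.inter_mem (Filter.inter_mem n1 n2) (Filter.inter_mem n3 n4), ?_⟩
  rintro x ⟨⟨hx1, hx2⟩, hx3, hx4⟩
  have h5 : e (g x) = e x := by
    apply hinj _ hx4 _ hx3
    rw [e.left_inv hx2, e.left_inv hx1, hi, add_comm]
  exact e.injOn hx2 hx1 h5

end

end Pool.Agent.helper62.K3
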