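import Pool.Agent.helper33.HK.GA

open scoped Manifold ContDiff

noncomputable section

namespace Pool.Agent.helper62.K3

section
variable {S : Type} [TopologicalSpace S] [ChartedSpace (ℂ × ℂ) S] [IsManifold 𝓘(ℂ, ℂ × ℂ) ω S]

/-- hk:GD the derivative is `1` on the closure of the open set where `g` is locally the identity -/
theorem GD (g : S → S) (hg : ContMDiff 𝓘(ℂ, ℂ × ℂ) 𝓘(ℂ, ℂ × ℂ) ω g) [T2Space S] (p : S)
    (hp : ∀ U ∈ nhds p, ∃ q ∈ U, ∃ W ∈ nhds q, ∀ x ∈ W, g x = x) :
    g p = p ∧ locD g p = ContinuousLinearMap.id ℂ (ℂ × ℂ) := by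
  have hgc : Continuous g := hg.continuous
  have hgp : g p = p := by
    have h1 : IsClosed {x | g x = x} := isClosed_eq hgc continuous_id
    have h2 : p ∈ closure {x | g x = x} := by
      rw [mem_closure_iff_nhds]
      intro U hU
      obtain ⟨q, hq, W, hW, hW2⟩ := hp U hU
      exact ⟨q, hq, hW2 q (mem_of_mem_nhds hW)⟩
    rw [h1.closure_eq] at h2
    exact h2
  refine ⟨hgp, ?_⟩
  set e := chartAt (ℂ × ℂ) p with he
  have hpe : p ∈ e.source := mem_chart_source (ℂ × ℂ) p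
  have hF0 := GA_contDiffAt g hg p p hpe (by rw [hgp]; exact hpe)
  rw [← he] at hF0
  have hc : ContinuousAt (fderiv ℂ (fun z => e (g (e.symm z)))) (e p) :=
    (hF0.fderiv_right (m := 0) (by simp)).continuousAt
  have hfr : ∃ᶠ z in nhds (e p), fderiv ℂ (fun z => e (g (e.symm z))) z ∈
      ({ContinuousLinearMap.id ℂ (ℂ × ℂ)} : Set ((ℂ × ℂ) →L[ℂ] (ℂ × ℂ))) := by
    rw [Filter.frequently_iff]
    intro V hV
    have n1 : e ⁻¹' V ∈ nhds p := (e.continuousAt hpe).preimage_mem_nhds hV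
    have n2 : e.source ∈ nhds p := e.open_source.mem_nhds hpe
    obtain ⟨q, ⟨hq1, hq2⟩, W, hW, hW2⟩ := hp _ (Filter.inter_mem n1 n2)
    refine ⟨e q, hq1, ?_⟩
    rw [Set.mem_singleton_iff]
    have h3 : (fun z => e (g (e.symm z))) =ᶠ[nhds (e q)] id := by
      have n3 : ∀ᶠ z in nhds (e q), e.symm z ∈ W := by
        apply (e.continuousAt_symm (e.map_source hq2)).preimage_mem_nhds
        rw [e.left_inv hq2]
        exact hW
      have n4 : ∀ᶠ z in nhds (e q), z ∈ e.target := e.open_target.mem_nhds (e.map_source hq2)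
      filter_upwards [n3, n4] with z hz1 hz2
      rw [hW2 _ hz1, e.right_inv hz2]
      rfl
    rw [h3.fderiv_eq, fderiv_id]
  exact isClosed_singleton.mem_of_frequently_of_tendsto hfr hc

end

end Pool.Agent.helper62.K3
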