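import Pool.Agent.helper33.HK.GC
import Pool.Agent.helper33.HK.GD

open scoped Manifold ContDiff

noncomputable section

namespace Pool.Agent.helper62.K3

section
variable {S : Type} [TopologicalSpace S] [ChartedSpace (ℂ × ℂ) S] [IsManifold 𝓘(ℂ, ℂ × ℂ) ω S]

/-- hk:GE (from GC, GD) -/
theorem GE [T2Space S] [ConnectedSpace S] (g : S → S)
    (hg : ContMDiff 𝓘(ℂ, ℂ × ℂ) 𝓘(ℂ, ℂ × ℂ) ω g) (hi : ∀ x, g (g x) = x) (p : S)
    (hp : g p = p) (hD : locD g p = ContinuousLinearMap.id ℂ (ℂ × ℂ)) : ∀ x, g x = x := by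
  set A : Set S := {x | ∃ U ∈ nhds x, ∀ y ∈ U, g y = y} with hA
  have hopen : IsOpen A := by
    rw [isOpen_iff_mem_nhds]
    rintro x ⟨U, hU, hU2⟩
    rw [mem_nhds_iff] at hU
    obtain ⟨V, hVU, hVo, hxV⟩ := hU
    exact Filter.mem_of_superset (hVo.mem_nhds hxV)
      (fun y hy => ⟨V, hVo.mem_nhds hy, fun z hz => hU2 z (hVU hz)⟩)
  have hclosed : IsClosed A := by
    rw [← closure_subset_iff_isClosed]
    intro x hx
    rw [mem_closure_iff_nhds] at hx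
    have h1 := GD g hg x (fun U hU => by
      obtain ⟨q, hq1, W, hW, hW2⟩ := hx U hU
      exact ⟨q, hq1, W, hW, hW2⟩)
    exact GC g hg hi x h1.1 h1.2
  have hne : A.Nonempty := ⟨p, GC g hg hi p hp hD⟩
  have huniv : A = Set.univ := IsClopen.eq_univ ⟨hclosed, hopen⟩ hne
  intro x
  have hx : x ∈ A := huniv ▸ Set.mem_univ x
  obtain ⟨U, hU, hU2⟩ := hx
  exact hU2 x (mem_of_mem_nhds hU)

end

end Pool.Agent.helper62.K3
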