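import Pool.Agent.helper62.K3.Defs

open scoped Manifold ContDiff

noncomputable section

namespace Pool.Agent.helper62.K3

/-- hk:LI -/
theorem LI (L : (ℂ × ℂ) →L[ℂ] (ℂ × ℂ)) (h2 : ∀ v, L (L v) = v) (hd : L.det = 1)
    (h1 : L ≠ ContinuousLinearMap.id ℂ (ℂ × ℂ)) : L = -ContinuousLinearMap.id ℂ (ℂ × ℂ) := by
  have hL : ∀ x y : ℂ, L (x, y) = (x * (L (1, 0)).1 + y * (L (0, 1)).1,
      x * (L (1, 0)).2 + y * (L (0, 1)).2) := by
    intro x y
    have h : ((x, y) : ℂ × ℂ) = x • ((1 : ℂ), (0 : ℂ)) + y • ((0 : ℂ), (1 : ℂ)) := by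
      ext <;> simp
    rw [h, map_add, map_smul, map_smul]
    ext <;> simp
  set a := (L (1, 0)).1 with ha
  set c := (L (1, 0)).2 with hc
  set b := (L (0, 1)).1 with hb
  set d := (L (0, 1)).2 with hdd
  have hdet : L.det = a * d - b * c := by
    have e1 : L.det = LinearMap.det (L : (ℂ × ℂ) →ₗ[ℂ] (ℂ × ℂ)) := rfl
    rw [e1, ← LinearMap.det_toMatrix (Module.Basis.finTwoProd ℂ), Matrix.det_fin_two]
    simp [LinearMap.toMatrix_apply, ha, hb, hc, hdd]
  have e1 : L (L (1, 0)) = (1, 0) := h2 _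
  have e2 : L (L (0, 1)) = (0, 1) := h2 _
  have f1 : L (1, 0) = (a, c) := rfl
  have f2 : L (0, 1) = (b, d) := rfl
  rw [f1, hL] at e1
  rw [f2, hL] at e2
  rw [Prod.mk.injEq] at e1 e2
  obtain ⟨g1, g2⟩ := e1
  obtain ⟨g3, g4⟩ := e2
  rw [hdet] at hd
  have k1 : a * (a + d) = 2 := by linear_combination g1 + hd
  have k2 : d * (a + d) = 2 := by linear_combination g4 + hd
  have hs : a + d ≠ 0 := by
    intro h
    rw [h, mul_zero] at k1
    norm_num at k1
  have k3 : a = d := by
    have : (a - d) * (a + d) = 0 := by linear_combination k1 - k2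
    rcases mul_eq_zero.1 this with h | h
    · exact sub_eq_zero.1 h
    · exact absurd h hs
  have k4 : b = 0 := by
    have : b * (a + d) = 0 := by linear_combination g3
    rcases mul_eq_zero.1 this with h | h
    · exact h
    · exact absurd h hs
  have k5 : c = 0 := by
    have : c * (a + d) = 0 := by linear_combination g2
    rcases mul_eq_zero.1 this with h | h
    · exact h
    · exact absurd h hs
  have k6 : (a - 1) * (a + 1) = 0 := by
    rw [← k3] at k1
    linear_combination k1 / 2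
  rcases mul_eq_zero.1 k6 with h | h
  · exfalso
    apply h1
    have ha1 : a = 1 := sub_eq_zero.1 h
    ext
    · change (L (1, 0)).1 = 1
      exact ha1
    · change (L (1, 0)).2 = 0
      exact k5
    · change (L (0, 1)).1 = 0
      exact k4
    · change (L (0, 1)).2 = 1
      rw [← hdd, ← k3, ha1]
  · have ha1 : a = -1 := eq_neg_of_add_eq_zero_left h
    ext
    · change (L (1, 0)).1 = -1
      exact ha1
    · change (L (1, 0)).2 = -0
      rw [neg_zero]
      exact k5
    · change (L (0, 1)).1 = -0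
      rw [neg_zero]
      exact k4
    · change (L (0, 1)).2 = -1
      rw [← hdd, ← k3, ha1]

end Pool.Agent.helper62.K3
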