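import Pool.Agent.helper62.K3.Defs

open scoped Manifold ContDiff

noncomputable section

namespace Pool.Agent.helper62.K3

/-- hk:RS -/
theorem RS {S : Type} [TopologicalSpace S] [ChartedSpace (ℂ × ℂ) S]
    [IsManifold 𝓘(ℂ, ℂ × ℂ) ω S] : IsManifold 𝓘(ℝ, ℂ × ℂ) ∞ S := by
  apply isManifold_of_contDiffOn
  intro e e' he he'
  have h1 : e.symm.trans e' ∈ contDiffGroupoid ω 𝓘(ℂ, ℂ × ℂ) :=
    (contDiffGroupoid ω 𝓘(ℂ, ℂ × ℂ)).compatible he he'
  have h2 := h1.1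
  exact (h2.restrict_scalars ℝ).of_le le_top

end Pool.Agent.helper62.K3
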